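import Pool.Agent.Run7.h491.FS.Lyap

/-!
# Finitude of attractors near skew products whose fibre maps belong to a flow

Author: helper491.

Definitions: `FinSigns`, `FinSigns'`, `IsPhysical`, `IsPhysicalF`, `ACProd`, `IsFlowSkew`,
`IsGoodSkew`, `GradLike`, `rev` in `Pool/Agent/Run7/h491/FS/Defs.lean`; `IsVF`, `IsFlowOf`, `dd`,
`fibreVF`, `baseVF`, `skewVF`, `ShiftsFinite`, `LineFinite`, `ShiftsAll`, `VFLine`, `LinesAll` in
`Pool/Agent/Run7/h491/FS/VDefs.lean`; `PDiff` (`C^∞` diffeomorphisms `Θ : M × B → N`) in
`Pool/Agent/Run7/h619/AA/Defs.lean`; `IsCrFlow` in `Pool/Agent/Run7/h491/HP/Flow.lean`; `FlowOn`, `omegaF`, `FiniteAttractorsF` in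
`Pool/Agent/N15/EQ/Flow.lean`; `V k = ℝ^k`, `DiffM n N r = Diff^r(N)` with the `C^r` topology
`strongTop n N r` in `Pool/Agent/H718R2/G0.lean`; `omegaLim`, `FiniteAttractors` in
`Pool/Agent/H728R2/FA/Defs.lean`.

## Idea of the proof

Let `L ⊆ M` be closed, invariant and transitive for the flow `φ`, `m` an ergodic measure of `h` with
support `S`, and `∫ c dm + ε > 0`. The `n`-th iterate of the map
`F_ε(x, y) = (φ_(c(y) + ε)(x), h(y))` is `(x, y) ↦ (φ_(S_n(y) + n ε)(x), h^n(y))`, where `S_n` are the
sums of `c` along the orbit of `y`. Take a point `y` for which the ergodic theorem holds for `c` and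
for the visits to an open set `V'` meeting `S`: it visits `V'` at a time `n` in each interval
`[p t, q t]`, `t` large, and `S_n(y) = n ∫ c dm + o(n)`. So given `x ∈ L` and a large time `t` with
`φ_t(x) ∈ V` we find such `n`, and a small change of `ε` gives `S_n(y) + n ε = t`. By the theorem of
Baire (applied in the space of parameters, and in `L × S`), for a residual set of `ε` the set `L × S`
is transitive for `F_ε`. For almost every `(x, y)` the sums `S_n(y) + n ε` tend to `∞` (or to `-∞`),
thus `ω(x, y)` is contained in the product of the `ω`-limit set of `x` under the flow `φ` (or the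
reversed flow) and `ω(y)`.
-/

set_option autoImplicit false

open scoped Manifold ContDiff Topology

universe u v w

namespace Pool.Agent.Results.MP_3a2b62_an.FlowSkewProducts

open MeasureTheory Set Pool.Agent.H718R2.G Run7.h491.FS

open Pool.Agent.N15.EQ (FlowOn FiniteAttractorsF)
open Pool.Agent.H728R2.FA (FiniteAttractors)
open Run7.h619.AA (PDiff)

/-- Let `M`, `B`, `N` be closed manifolds, `Θ : M × B → N` a `C^∞` diffeomorphism, `0 ≤ r ≤ ∞`, and let
`μM`, `μB`, `μ` be measures on `M`, `B`, `N` such that `Θ` sends the null sets of `μM × μB` to null sets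
of `μ` (for instance smooth volumes).

1. Let `F ∈ Diff^r(N)` be in the coordinates `Θ` the map `(x, y) ↦ (φ_(c(y))(x), h(y))`, where `φ` is a
`C^r` flow on `M`, `h ∈ Diff^r(B)` has finitely many physical measures `m_j` (which attract
`μB`-almost every point), and `c` is continuous. Put `F_ε(x, y) = (φ_(c(y) + ε)(x), h(y))`. For all
`ε` in a residual subset of `ℝ` the following holds: if `φ` has finitely many attractors covering
`M`, or no number `∫ c dm_j + ε` is positive, and if the reversed flow has finitely many
attractors covering `M`, or no such number is negative, then `F_ε` has finitely many attractors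
covering `N`.

2. Consider such maps `F` (with any `φ`, `h`, `c`, `m_j`) for which `φ` and the reversed flow have
finitely many attractors covering `M`, or `φ` has and all `∫ c dm_j ≥ 0`, or the reversed flow has and
all `∫ c dm_j ≤ 0`. Each limit in `Diff^r(N)` of maps `F` of this kind is also a limit of maps of this
kind which have finitely many attractors covering `N`.

3. Let `X`, `Y` be `C^r` vector fields on `M`, `B` with flows `φ`, `g`, and `c ∈ C^r(B)`; let `g` have
finitely many physical measures `m_j`, ergodic for the map `g_τ`, for some `τ > 0`. The fields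
`Z = (c X, Y)` and `W = (X, 0)` on `M × B = N` are `C^r`, `Z + ε W` has a flow, and for a residual set
of `ε` it has finitely many attractors covering `N`, if the condition of 1 on `φ` and the numbers
`∫ c dm_j + ε` holds.

4. If `m` is an ergodic probability measure of a map `h : B → B`, with full support, and `μB` is
absolutely continuous with respect to `m`, then `m` is the only physical measure of `h`.

5. If a continuous flow `φ` on `M` has finitely many rest points, and a continuous function increases
strictly along its other orbits, then `φ` and the reversed flow have finitely many attractors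
covering `M`. -/
theorem result (k b n : ℕ) (M : Type v) (B : Type u) (N : Type w) [TopologicalSpace M] [T2Space M]
    [CompactSpace M] [ChartedSpace (V k) M] [IsManifold (𝓡 k) ∞ M] [TopologicalSpace B] [T2Space B]
    [CompactSpace B] [ChartedSpace (V b) B] [IsManifold (𝓡 b) ∞ B] [TopologicalSpace N] [T2Space N]
    [CompactSpace N] [ChartedSpace (V n) N] [IsManifold (𝓡 n) ∞ N] [MeasurableSpace M]
    [MeasurableSpace B] [BorelSpace B] [MeasurableSpace N] (r : ℕ∞) (Θ : PDiff k b n M B N)
    (μM : Measure M) [SFinite μM] (μB : Measure B) [SFinite μB] (μ : Measure N)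
    (hμ : ACProd Θ μM μB μ) :
    ShiftsAll r Θ μM μB μ ∧
    closure[strongTop n N r] {F | IsGoodSkew Θ μM μB F} ⊆
      closure[strongTop n N r] {G | IsGoodSkew Θ μM μB G ∧ FiniteAttractors μ G} ∧
    LinesAll r Θ μM μB μ ∧
    (∀ (h : B → B) (m : Measure B), IsProbabilityMeasure m → m.IsOpenPosMeasure → Ergodic h m →
      μB ≪ m → IsPhysical μB h (fun _ : Fin 1 => m)) ∧
    (∀ (φ : ℝ → M → M) (f : M → ℝ), FlowOn M φ → GradLike φ f →
      FiniteAttractorsF μM φ ∧ FiniteAttractorsF μM (rev φ)) := by
  refine ⟨fun φ h c F p m hF H => mainShifts μM μB μ hμ hF H, main2 μM μB μ hμ, ?_, ?_, ?_⟩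
  · intro X Y c φ g τ p m hX hY hc hφ hg H
    exact mainVF μM μB μ hμ hX hY hc hφ hg H
  · intro h m hm hm' H hac
    exact physical_single H hac
  · intro φ f hφ hf
    have : SecondCountableTopology M := ChartedSpace.secondCountable_of_sigmaCompact (V k) M
    exact ⟨hf.finite hφ μM, (hf.reverse hφ).finite (rev_flow hφ) μM⟩

end Pool.Agent.Results.MP_3a2b62_an.FlowSkewProducts
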